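import Pool.Agent.Helper4.HZ.Goals

/-!
# The upper bound for the abscissa of convergence (packet ZAB)
-/

namespace Pool.Agent.Helper70.HZ

open Pool.Agent.Helper4.HZ Pool.Agent.Helper23.Hurwitz

theorem Z_mono (s : ℝ) {A B : Set ℕ} (h : A ⊆ B) : Z s A ≤ Z s B := by
  unfold Z
  exact ENNReal.tsum_mono_subtype (fun n : ℕ => ENNReal.ofReal ((n : ℝ) ^ (-s))) h

/-- Finiteness of `Z` from a smaller exponent. -/
theorem Z_lt_top_of_summable {r s : ℝ} (hrs : r ≤ s) {A : Set ℕ} (hA : ∀ a ∈ A, 1 ≤ a)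
    (h : Summable (fun g : A => ((g : ℕ) : ℝ) ^ (-r))) : Z s A < ⊤ := by
  have h2 : Summable (fun g : A => ((g : ℕ) : ℝ) ^ (-s)) := by
    refine Summable.of_nonneg_of_le (fun g => Real.rpow_nonneg (Nat.cast_nonneg _) _)
      (fun g => ?_) h
    refine Real.rpow_le_rpow_of_exponent_le ?_ (by linarith)
    exact_mod_cast hA g.1 g.2
  unfold Z
  have h3 := h2.tsum_ofReal_lt_top
  exact h3

/-- Summability from finiteness of `Z`. -/
theorem summable_of_tsum_ne_top {ι : Type} {f : ι → ℝ} (hf : ∀ i, 0 ≤ f i)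
    (h : ∑' i, ENNReal.ofReal (f i) ≠ ⊤) : Summable f := by
  have h1 := ENNReal.summable_toReal h
  refine h1.congr (fun i => ?_)
  rw [ENNReal.toReal_ofReal (hf i)]

theorem one_le_of_mem_simpleOrders (X : (T : Type) → [Group T] → Prop) :
    ∀ a ∈ simpleOrders X, 1 ≤ a := by
  rintro a ⟨T, hT, hfin, -, -, -, rfl⟩
  exact Nat.card_pos

theorem ZAB_holds (hUDA : S_UDA) (hZPR : S_ZPR) (hZGN : S_ZGN) (hZRD : S_ZRD) (hZFL : S_ZFL)
    (hZAT : S_ZAT) : S_ZAB := by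
  intro X
  rw [← EReal.le_of_forall_lt_iff_le]
  intro s hs
  obtain ⟨s', hs1, hs2⟩ := EReal.lt_iff_exists_real_btwn.mp hs
  have hss : s' < s := EReal.coe_lt_coe_iff.mp hs2
  have h16 : 1 / 6 < s' := EReal.coe_lt_coe_iff.mp (lt_of_le_of_lt (le_max_left _ _) hs1)
  have habs : abscissa (simpleOrders X) < (s' : EReal) :=
    lt_of_le_of_lt (le_max_right _ _) hs1
  have h0 : 0 < s' := by linarith
  -- the simple orders
  have hZs : Z s' (simpleOrders X) < ⊤ := by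
    unfold abscissa at habs
    obtain ⟨e, ⟨r, rfl, hr⟩, hlt⟩ := sInf_lt_iff.mp habs
    have hrs : r < s' := EReal.coe_lt_coe_iff.mp hlt
    exact Z_lt_top_of_summable hrs.le (one_le_of_mem_simpleOrders X) hr
  obtain ⟨hat, hat2⟩ := hZAT X s' h16 hZs
  have hcl : Z s' (Submonoid.closure (atoms X) : Set ℕ) < ⊤ := hZGN s' (atoms X) h0 hat2 hat
  have hcl1 : ∀ a ∈ (Submonoid.closure (atoms X) : Set ℕ), 1 ≤ a := by
    intro a ha
    have ha' : a ∈ Submonoid.closure (atoms X) := ha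
    induction ha' using Submonoid.closure_induction with
    | mem x hx => exact le_trans (by norm_num) (hat2 x hx)
    | one => exact le_refl 1
    | mul x y hx hy hx1 hy1 => exact Nat.mul_pos (hx1 hx) (hy1 hy)
  have hrd := hZRD s' s _ h0 hss hcl1 hcl
  have hfl := hZFL s (by linarith)
  have hpr := hZPR s _ _ |>.trans_lt (ENNReal.mul_lt_top hrd hfl)
  -- the set of data
  have hD : Z s {n : ℕ | n ≠ 0 ∧ Data X n} < ⊤ := by
    refine (Z_mono s ?_).trans_lt hpr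
    rintro n ⟨hn0, a, ha, b, c, hn, hb, hc⟩
    refine ⟨a * b, ⟨a, ha, b, rfl, hb⟩, c, ⟨?_, hc⟩, hn⟩
    rintro rfl
    exact hn0 (by rw [hn, mul_zero])
  -- the map
  let φ : UX X → {n : ℕ | n ≠ 0 ∧ Data X n} := fun g =>
    ⟨84 * (g.1 - 1), by
      have := g.2.1
      omega, hUDA X g.1 g.2⟩
  have hφ : Function.Injective φ := by
    intro g g' h
    have h1 : 84 * (g.1 - 1) = 84 * (g'.1 - 1) := congrArg (fun t => t.1) h
    have h2 := g.2.1
    have h3 := g'.2.1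
    apply Subtype.ext
    omega
  have hsum : ∑' g : UX X, ENNReal.ofReal (((84 * (g.1 - 1) : ℕ) : ℝ) ^ (-s)) ≠ ⊤ := by
    have hle := ENNReal.tsum_comp_le_tsum_of_injective hφ
      (fun n : {n : ℕ | n ≠ 0 ∧ Data X n} => ENNReal.ofReal (((n : ℕ) : ℝ) ^ (-s)))
    exact (hle.trans_lt hD).ne
  have hS := summable_of_tsum_ne_top (fun g => Real.rpow_nonneg (Nat.cast_nonneg _) _) hsum
  have hS2 : Summable (fun g : UX X => ((g : ℕ) : ℝ) ^ (-s)) := by
    refine Summable.of_nonneg_of_le (fun g => Real.rpow_nonneg (Nat.cast_nonneg _) _)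
      (fun g => ?_) (hS.mul_left ((84 : ℝ) ^ s))
    have hg := g.2.1
    have hpos : (0 : ℝ) < ((84 * (g.1 - 1) : ℕ) : ℝ) := by
      have : 0 < 84 * (g.1 - 1) := by omega
      exact_mod_cast this
    have hgpos : (0 : ℝ) < ((g : ℕ) : ℝ) := by
      have : 0 < g.1 := by omega
      exact_mod_cast this
    have hle : ((84 * (g.1 - 1) : ℕ) : ℝ) ≤ 84 * ((g : ℕ) : ℝ) := by
      have : 84 * (g.1 - 1) ≤ 84 * g.1 := by omega
      exact_mod_cast this
    have h1 : (84 * ((g : ℕ) : ℝ)) ^ (-s) ≤ ((84 * (g.1 - 1) : ℕ) : ℝ) ^ (-s) :=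
      Real.rpow_le_rpow_of_nonpos hpos hle (by linarith)
    have h2 : ((g : ℕ) : ℝ) ^ (-s) = 84 ^ s * (84 * ((g : ℕ) : ℝ)) ^ (-s) := by
      rw [Real.mul_rpow (by norm_num) hgpos.le, ← mul_assoc, ← Real.rpow_add (by norm_num)]
      simp
    rw [h2]
    exact mul_le_mul_of_nonneg_left h1 (Real.rpow_nonneg (by norm_num) _)
  exact sInf_le ⟨s, rfl, hS2⟩

end Pool.Agent.Helper70.HZ
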